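import Pool.Agent.Y32.AC.MainN

/-!
# Fundamental groups of closed nonpositively curved manifolds which are not minimally almost convex

A finitely generated group is minimally almost convex with respect to a finite generating set if for
all large `r` any two points of the sphere `S(r)` at distance at most `2` are joined by a path of
length at most `2 r - 1` in the ball `B(r)`.  This is the weakest of the conditions of this kind,
because the path through the identity always has length `2 r`; almost convexity asks for paths of
bounded length.

We show that in every dimension `n ≥ 4` there are closed manifolds with a Riemannian metric of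
nonpositive sectional curvature whose fundamental group is not even minimally almost convex with
respect to some finite generating set; it fails to be so at every odd radius.  The same holds for
every finitely generated group which retracts onto the direct product of two free groups of rank two.
-/

set_option autoImplicit false

open scoped Manifold ContDiff

namespace Pool.Agent.Results.MP_25a560_al.NotMinimallyAlmostConvex

open Pool.Agent.H65R2.AC

/-- For every odd radius `r` there are two points `x`, `y` of the sphere `S(r)` at distance `2`, such
that every path from `x` to `y` in the ball `B(r)` has length at least `2 r`, the length of the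
shortest paths from `x` to `y` through the identity. -/
def DetourThroughIdentity {G : Type} [Group G] (S : Set G) : Prop :=
  ∀ r : ℕ, Odd r → ∃ x y : G, wordLen S x = r ∧ wordLen S y = r ∧ wordLen S (x⁻¹ * y) = 2 ∧
    ∀ (n : ℕ) (p : ℕ → G), p 0 = x → p n = y → (∀ i < n, IsStep S ((p i)⁻¹ * p (i + 1))) →
      (∀ i ≤ n, wordLen S (p i) ≤ r) → 2 * r ≤ n

/-- (1) For every `n ≥ 4` there is a closed connected smooth `n`-manifold `M` with a smooth
Riemannian metric `g` of nonpositive sectional curvature whose fundamental group has a finite
generating set `S` with respect to which it is not almost convex, and not even minimally almost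
convex, at any odd radius.

(2) Every finitely generated group `H` with a retraction `ρ` onto the direct product of two free
groups of rank two has such a generating set. -/
theorem result :
    (∀ n : ℕ, 4 ≤ n → ∃ (M : Type) (_ : TopologicalSpace M)
      (_ : ChartedSpace (EuclideanSpace ℝ (Fin n)) M) (_ : IsManifold (𝓡 n) ∞ M)
      (g : Metric (EuclideanSpace ℝ (Fin n)) M),
      CompactSpace M ∧ T2Space M ∧ ConnectedSpace M ∧ NonposCurved g ∧
      ∀ x : M, ∃ S : Set (FundamentalGroup M x),
        S.Finite ∧ Subgroup.closure S = ⊤ ∧ ¬ AlmostConvex S ∧ DetourThroughIdentity S) ∧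
    ∀ (H : Type) [Group H] [Group.FG H]
      (ρ : H →* FreeGroup (Fin 2) × FreeGroup (Fin 2))
      (σ : FreeGroup (Fin 2) × FreeGroup (Fin 2) →* H), (∀ q, ρ (σ q) = q) →
      ∃ S : Set H, S.Finite ∧ Subgroup.closure S = ⊤ ∧ ¬ AlmostConvex S ∧
        DetourThroughIdentity S := by
  refine ⟨fun n hn => ?_, fun H _ _ ρ σ hρ => ?_⟩
  · obtain ⟨k, rfl⟩ : ∃ k, n = k + 4 := ⟨n - 4, by omega⟩
    refine ⟨Pool.Agent.Y32.AC.Hex.Mn k, inferInstance, inferInstance, inferInstance,
      Pool.Agent.Y32.AC.Hex.gn k, inferInstance, inferInstance, inferInstance,
      Pool.Agent.Y32.AC.Hex.nonposCurved_gn, fun x => ?_⟩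
    obtain ⟨S, h1, h2, h3⟩ := Pool.Agent.Y32.AC.Hex.exists_extremal_pi1 k x
    exact ⟨S, h1, h2, h3.not_almostConvex, h3⟩
  · obtain ⟨S, h1, h2, h3⟩ := Pool.Agent.Y32.AC.Free.exists_extremal ρ σ hρ
    exact ⟨S, h1, h2, h3.not_almostConvex, h3⟩

end Pool.Agent.Results.MP_25a560_al.NotMinimallyAlmostConvex
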